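import Pool.Agent.Lib_helper47.Flip.Base

/-!
# Block BETA: homotopy in `t` over a compact part of `D`, and splitting of the degree
-/

set_option autoImplicit false

namespace Pool.Agent.Flip

open scoped InnerProductSpace ComplexConjugate
open Complex Set Metric Filter Topology Pool.Agent.Deg47

noncomputable section

theorem continuous_sysT {Φ : Sys} (hS : Symm Φ) (v : V) (u : W) {X : Type*} [TopologicalSpace X]
    {t : X → ℝ} {p : X → EE} (ht : Continuous t) (hp : Continuous p) :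
    Continuous fun x => sysT Φ v u (t x) (p x) := by
  have hp1 : Continuous fun x => (p x).1 := continuous_fst.comp hp
  have hp2 : Continuous fun x => (p x).2.1 := (continuous_fst.comp continuous_snd).comp hp
  have hp3 : Continuous fun x => (p x).2.2 := (continuous_snd.comp continuous_snd).comp hp
  have hA : Continuous fun x => A Φ (p x).1 := (continuous_A Φ).comp hp1
  have hAp : Continuous fun x => Ap Φ (p x).1 := (continuous_Ap hS).comp hp1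
  have h1 : Continuous fun x => Ap Φ (p x).1 v := hAp.clm_apply continuous_const
  have h2 : Continuous fun x => A Φ (p x).1 (p x).2.2 := hA.clm_apply hp3
  have h3 : Continuous fun x => J1 (Ap Φ (p x).1 v) := J1.continuous.comp h1
  have h4 : Continuous fun x => q Φ ((p x).2.2 + t x • J1 (Ap Φ (p x).1 v)) :=
    (continuous_q Φ).comp (hp3.add (ht.smul h3))
  unfold sysT
  exact Continuous.prodMk ((h4.sub (hp2.smul hp1)).sub continuous_const)
    (Continuous.prodMk ((hp1.norm.pow 2).sub continuous_const) h2)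

theorem continuous_sys0 (Φ : Sys) (u : W) : Continuous (sys0 Φ u) := by
  have hA : Continuous fun p : EE => A Φ p.1 := (continuous_A Φ).comp continuous_fst
  have h2 : Continuous fun p : EE => A Φ p.1 p.2.2 := hA.clm_apply (by fun_prop)
  unfold sys0
  refine Continuous.prodMk ?_ (Continuous.prodMk (by fun_prop) h2)
  exact (((continuous_q Φ).comp (by fun_prop)).sub (by fun_prop)).sub continuous_const

theorem sysT_eq_zero {Φ : Sys} {v : V} {u : W} {t : ℝ} {p : EE} (h : sysT Φ v u t p = 0) :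
    q Φ (p.2.2 + t • J1 (Ap Φ p.1 v)) - p.2.1 • p.1 = u ∧ ‖p.1‖ = 1 ∧ A Φ p.1 p.2.2 = 0 := by
  unfold sysT at h
  rw [Prod.mk_eq_zero, Prod.mk_eq_zero] at h
  refine ⟨sub_eq_zero.1 h.1, ?_, h.2.2⟩
  have h1 : ‖p.1‖ ^ 2 = 1 := by linarith [h.2.1]
  exact (pow_eq_one_iff_of_nonneg (norm_nonneg _) two_ne_zero).1 h1

theorem sysT_eq_zero_iff {Φ : Sys} {v : V} {u : W} {t : ℝ} {p : EE} : sysT Φ v u t p = 0 ↔
    q Φ (p.2.2 + t • J1 (Ap Φ p.1 v)) - p.2.1 • p.1 = u ∧ ‖p.1‖ = 1 ∧ A Φ p.1 p.2.2 = 0 := by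
  refine ⟨sysT_eq_zero, fun h => ?_⟩
  unfold sysT
  rw [h.1, sub_self, h.2.1, h.2.2]
  norm_num

theorem mem_D_of_zero {Φ : Sys} {w : W} {z : V} (hw : ‖w‖ = 1) (hz : z ≠ 0) (h : A Φ w z = 0) :
    w ∈ D Φ := ⟨hw, z, hz, h⟩

/-- The homotopy `t ∈ [0,T]` over a compact part `C` of `D`. -/
theorem beta {Φ : Sys} (hS : Symm Φ) (hZ : ZeroFree Φ) {v : V} {u : W}
    (hG1 : ∀ w ∈ D Φ, ∀ t c : ℝ, q Φ (t • J1 (Ap Φ w v)) - c • w ≠ u)
    {N C : Set W} (hN : IsOpen N) (hC : IsCompact C) (hCN : C ⊆ N) (hCD : C ⊆ D Φ)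
    (hDN : ∀ w ∈ D Φ, w ∈ N → w ∈ C) (T : ℝ) :
    deg (sysT Φ v u T) (dom N) = deg (sys0 Φ u) (dom N) := by
  obtain ⟨m, hm, hmq⟩ := exists_q_bound hZ
  obtain ⟨R, hR0, hR⟩ : ∃ R : ℝ, 0 ≤ R ∧ ∀ r : ℝ, m * r ^ 2 ≤ ‖u‖ → |r| ≤ R := by
    refine ⟨Real.sqrt (‖u‖ / m), Real.sqrt_nonneg _, fun r hr => ?_⟩
    apply Real.abs_le_sqrt
    rw [le_div_iff₀ hm]; linarith
  have hcont : Continuous fun p : ℝ × EE => sysT Φ v u (p.1 * T) p.2 :=
    continuous_sysT hS v u (continuous_fst.mul continuous_const) continuous_snd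
  have hcomp : IsCompact ((Icc (0 : ℝ) 1 ×ˢ (C ×ˢ (Icc (-‖u‖) ‖u‖ ×ˢ closedBall (0 : V) R)))
      ∩ (fun p : ℝ × EE => sysT Φ v u (p.1 * T) p.2) ⁻¹' {0}) := by
    refine (isCompact_Icc.prod (hC.prod (isCompact_Icc.prod (isCompact_closedBall _ _)))).inter_right
      (isClosed_singleton.preimage hcont)
  obtain ⟨K, hK⟩ : ∃ K : Set EE, K = Prod.snd ''
    ((Icc (0 : ℝ) 1 ×ˢ (C ×ˢ (Icc (-‖u‖) ‖u‖ ×ˢ closedBall (0 : V) R)))
      ∩ (fun p : ℝ × EE => sysT Φ v u (p.1 * T) p.2) ⁻¹' {0}) := ⟨_, rfl⟩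
  have hKc : IsCompact K := by rw [hK]; exact hcomp.image continuous_snd
  have hKsub : K ⊆ dom N := by
    rw [hK]
    rintro p ⟨⟨s, p'⟩, ⟨⟨hs, hp⟩, h0⟩, rfl⟩
    refine ⟨hCN hp.1, fun hz => ?_⟩
    have h1 := (sysT_eq_zero h0).1
    simp only at h1 hz
    rw [hz, zero_add] at h1
    exact hG1 _ (hCD hp.1) _ _ h1
  have hKz : ∀ s ∈ Icc (0 : ℝ) 1, ∀ p ∈ dom N, sysT Φ v u (s * T) p = 0 → p ∈ K := by
    intro s hs p hp h0
    rw [hK]
    refine ⟨(s, p), ⟨⟨hs, ?_⟩, h0⟩, rfl⟩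
    obtain ⟨h1, h2, h3⟩ := sysT_eq_zero h0
    have hb := zero_bound hS hmq h2 h3 (Ap_mem Φ p.1 v) h1
    refine ⟨hDN _ (mem_D_of_zero h2 hp.2 h3) hp.1, abs_le.1 hb.2.1, ?_⟩
    rw [mem_closedBall_zero_iff]
    have h4 : m * ‖p.2.2‖ ^ 2 ≤ ‖u‖ := by
      refine le_trans ?_ hb.2.2
      have : 0 ≤ m * (2 * (s * T) ^ 2 * ‖Ap Φ p.1 v‖ ^ 2) := by positivity
      linarith
    have := hR _ h4
    rwa [abs_of_nonneg (norm_nonneg _)] at this
  have hopen : IsOpen (dom N) := isOpen_dom hN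
  have hhom : deg (sysT Φ v u (0 * T)) (dom N) = deg (sysT Φ v u (1 * T)) (dom N) :=
    deg_homotopy (E := EE) (fun (s : ℝ) => sysT Φ v u (s * T)) hopen hcont.continuousOn hKc hKsub hKz
  rw [one_mul, zero_mul, sysT_zero] at hhom
  exact hhom.symm

/-- Admissibility of the system over a compact part of `D` (when `u` is not on a line through it). -/
theorem adm_sys0 {Φ : Sys} (hZ : ZeroFree Φ) (hS : Symm Φ) {u : W}
    (hu : ∀ w ∈ D Φ, ∀ c : ℝ, c • w ≠ u) {N C : Set W} (hN : IsOpen N) (hC : IsCompact C)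
    (hCN : C ⊆ N) (hCD : C ⊆ D Φ) (hDN : ∀ w ∈ D Φ, w ∈ N → w ∈ C) :
    Adm (sys0 Φ u) (dom N) := by
  obtain ⟨m, hm, hmq⟩ := exists_q_bound hZ
  obtain ⟨R, hR0, hR⟩ : ∃ R : ℝ, 0 ≤ R ∧ ∀ r : ℝ, m * r ^ 2 ≤ ‖u‖ → |r| ≤ R := by
    refine ⟨Real.sqrt (‖u‖ / m), Real.sqrt_nonneg _, fun r hr => ?_⟩
    apply Real.abs_le_sqrt
    rw [le_div_iff₀ hm]; linarith
  have hcomp : IsCompact ((C ×ˢ (Icc (-‖u‖) ‖u‖ ×ˢ closedBall (0 : V) R)) ∩ sys0 Φ u ⁻¹' {0}) :=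
    (hC.prod (isCompact_Icc.prod (isCompact_closedBall _ _))).inter_right
      (isClosed_singleton.preimage (continuous_sys0 Φ u))
  have hz0 : ∀ p : EE, sys0 Φ u p = 0 → q Φ p.2.2 - p.2.1 • p.1 = u ∧ ‖p.1‖ = 1 ∧
      A Φ p.1 p.2.2 = 0 := by
    intro p h
    rw [← sysT_zero Φ 0 u] at h
    have := sysT_eq_zero h
    rwa [zero_smul, add_zero] at this
  refine Adm.of_subset_compact (isOpen_dom hN) (continuous_sys0 Φ u).continuousOn hcomp ?_ ?_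
  · rintro p ⟨hp, h0⟩
    refine ⟨hCN hp.1, fun hz => ?_⟩
    have h1 := (hz0 p h0).1
    rw [hz, q_zero, zero_sub, ← neg_smul] at h1
    exact hu _ (hCD hp.1) _ h1
  · intro p hp h0
    refine ⟨?_, h0⟩
    obtain ⟨h1, h2, h3⟩ := hz0 p h0
    have hb := zero_bound hS hmq h2 h3 (x := 0) (Submodule.zero_mem _) (t := 0)
      (by rw [zero_smul, add_zero, h1])
    refine ⟨hDN _ (mem_D_of_zero h2 hp.2 h3) hp.1, abs_le.1 hb.2.1, ?_⟩
    rw [mem_closedBall_zero_iff]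
    have h4 : m * ‖p.2.2‖ ^ 2 ≤ ‖u‖ := by
      refine le_trans ?_ hb.2.2
      simp
    have := hR _ h4
    rwa [abs_of_nonneg (norm_nonneg _)] at this

theorem isClosed_D (Φ : Sys) : IsClosed (D Φ) := by
  have h1 : D Φ = Prod.fst '' ((sphere (0 : W) 1 ×ˢ sphere (0 : V) 1) ∩
      (fun p : W × V => A Φ p.1 p.2) ⁻¹' {0}) := by
    ext w
    constructor
    · rintro ⟨hw, z, hz, h⟩
      refine ⟨(w, ‖z‖⁻¹ • z), ⟨⟨by simpa using hw, ?_⟩, ?_⟩, rfl⟩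
      · rw [mem_sphere_zero_iff_norm, norm_smul, norm_inv, norm_norm,
          inv_mul_cancel₀ (norm_ne_zero_iff.2 hz)]
      · rw [mem_preimage, map_smul, h, smul_zero, mem_singleton_iff]
    · rintro ⟨⟨w', z⟩, ⟨⟨hw, hz⟩, h⟩, rfl⟩
      refine ⟨by simpa using hw, z, ?_, h⟩
      rintro rfl
      simp at hz
  rw [h1]
  refine (IsCompact.image ?_ continuous_fst).isClosed
  refine ((isCompact_sphere _ _).prod (isCompact_sphere _ _)).inter_right ?_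
  refine isClosed_singleton.preimage ?_
  exact ((continuous_A Φ).comp continuous_fst).clm_apply continuous_snd

theorem isCompact_D (Φ : Sys) : IsCompact (D Φ) :=
  (isCompact_sphere (0 : W) 1).of_isClosed_subset (isClosed_D Φ) (fun w hw => by simpa using hw.1)

/-- Splitting of the total degree. -/
theorem deg_split {Φ : Sys} (hZ : ZeroFree Φ) (hS : Symm Φ) {u : W}
    (hu : ∀ w ∈ D Φ, ∀ c : ℝ, c • w ≠ u) {N₁ N₂ : Set W} (h₁ : IsOpen N₁) (h₂ : IsOpen N₂)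
    (hd : Disjoint N₁ N₂) (hcov : D Φ ⊆ N₁ ∪ N₂) :
    deg (sys0 Φ u) (dom univ) = deg (sys0 Φ u) (dom N₁) + deg (sys0 Φ u) (dom N₂) := by
  have hadm : Adm (sys0 Φ u) (dom univ) :=
    adm_sys0 hZ hS hu isOpen_univ (isCompact_D Φ) (subset_univ _) le_rfl (fun w hw _ => hw)
  have hz0 : ∀ p ∈ dom univ, sys0 Φ u p = 0 → p ∈ dom N₁ ∪ dom N₂ := by
    intro p hp h0
    rw [← sysT_zero Φ 0 u] at h0
    obtain ⟨_, h2, h3⟩ := sysT_eq_zero h0
    rcases hcov (mem_D_of_zero h2 hp.2 h3) with h | h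
    · exact Or.inl ⟨h, hp.2⟩
    · exact Or.inr ⟨h, hp.2⟩
  have hsub : dom N₁ ∪ dom N₂ ⊆ dom univ := by
    rintro p (hp | hp)
    · exact ⟨mem_univ _, hp.2⟩
    · exact ⟨mem_univ _, hp.2⟩
  rw [← deg_excision hadm ((isOpen_dom h₁).union (isOpen_dom h₂)) hsub hz0]
  refine deg_union (isOpen_dom h₁) (isOpen_dom h₂) ?_
    (hadm.mono ((isOpen_dom h₁).union (isOpen_dom h₂)) hsub hz0)
  rw [disjoint_left]
  intro p hp hp'
  exact (disjoint_left.1 hd) hp.1 hp'.1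

end

end Pool.Agent.Flip
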