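import Pool.Agent.Lib_helper31.Flip.Cpt
import Pool.Agent.Lib_helper47.Flip.Beta

/-!
# Block GAMMA, global part: reduction to small balls around the zeros of `A_+(w)v`
-/

set_option autoImplicit false

namespace Pool.Agent.Flip

open scoped InnerProductSpace ComplexConjugate
open Complex Set Metric Filter Topology Pool.Agent.Deg47

noncomputable section

/-- Admissibility of `sysT` over a compact part of `D`. -/
theorem adm_sysT {Φ : Sys} (hS : Symm Φ) (hZ : ZeroFree Φ) {v : V} {u : W}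
    (hG1 : ∀ w ∈ D Φ, ∀ t c : ℝ, q Φ (t • J1 (Ap Φ w v)) - c • w ≠ u)
    {N C : Set W} (hN : IsOpen N) (hC : IsCompact C) (hCN : C ⊆ N) (hCD : C ⊆ D Φ)
    (hDN : ∀ w ∈ D Φ, w ∈ N → w ∈ C) (T : ℝ) : Adm (sysT Φ v u T) (dom N) := by
  obtain ⟨m, hm, hmq⟩ := exists_q_bound hZ
  obtain ⟨R, hR0, hR⟩ : ∃ R : ℝ, 0 ≤ R ∧ ∀ r : ℝ, m * r ^ 2 ≤ ‖u‖ → |r| ≤ R := by
    refine ⟨Real.sqrt (‖u‖ / m), Real.sqrt_nonneg _, fun r hr => ?_⟩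
    apply Real.abs_le_sqrt
    rw [le_div_iff₀ hm]; linarith
  have hcont : Continuous fun p : EE => sysT Φ v u T p :=
    continuous_sysT hS v u continuous_const continuous_id
  have hcomp : IsCompact ((C ×ˢ (Icc (-‖u‖) ‖u‖ ×ˢ closedBall (0 : V) R)) ∩
      (fun p : EE => sysT Φ v u T p) ⁻¹' {0}) :=
    (hC.prod (isCompact_Icc.prod (isCompact_closedBall _ _))).inter_right
      (isClosed_singleton.preimage hcont)
  refine Adm.of_subset_compact (isOpen_dom hN) hcont.continuousOn hcomp ?_ ?_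
  · rintro p ⟨hp, h0⟩
    refine ⟨hCN hp.1, fun hz => ?_⟩
    have h1 := (sysT_eq_zero h0).1
    rw [hz, zero_add] at h1
    exact hG1 _ (hCD hp.1) _ _ h1
  · intro p hp h0
    refine ⟨?_, h0⟩
    obtain ⟨h1, h2, h3⟩ := sysT_eq_zero h0
    have hb := zero_bound hS hmq h2 h3 (Ap_mem Φ p.1 v) h1
    refine ⟨hDN _ (mem_D_of_zero h2 hp.2 h3) hp.1, abs_le.1 hb.2.1, ?_⟩
    rw [mem_closedBall_zero_iff]
    have h4 : m * ‖p.2.2‖ ^ 2 ≤ ‖u‖ := by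
      refine le_trans ?_ hb.2.2
      have : 0 ≤ m * (2 * T ^ 2 * ‖Ap Φ p.1 v‖ ^ 2) := by positivity
      linarith
    have := hR _ h4
    rwa [abs_of_nonneg (norm_nonneg _)] at this

/-- The global reduction. -/
theorem gamma_of_local {Φ : Sys} (hS : Symm Φ) (hZ : ZeroFree Φ) {v : V} {u : W}
    (hV2 : ∀ w ∈ D2 Φ, Ap Φ w v ≠ 0)
    (hVfin : {w | w ∈ D1 Φ ∧ Ap Φ w v = 0}.Finite)
    (hG1 : ∀ w ∈ D Φ, ∀ t c : ℝ, q Φ (t • J1 (Ap Φ w v)) - c • w ≠ u)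
    {N : Set W} (hN : IsOpen N) (hBN : ∀ w ∈ D Φ, w ∈ N ↔ w ∈ BB Φ)
    (hloc : ∀ w₀ ∈ D1 Φ, Ap Φ w₀ v = 0 → dd Φ w₀ = 0 → ∀ r₀ : ℝ, 0 < r₀ →
      ∃ r : ℝ, 0 < r ∧ r ≤ r₀ ∧ ∀ᶠ T : ℝ in atTop, deg (sysT Φ v u T) (dom (ball w₀ r)) = 0) :
    ∀ᶠ T : ℝ in atTop, deg (sysT Φ v u T) (dom N) = 0 := by
  obtain ⟨m, hm, hmq⟩ := exists_q_bound hZ
  have hBB := isCompact_BB hS hZ
  have hBD : BB Φ ⊆ D Φ := fun w hw => hw.1
  have hBBN : BB Φ ⊆ N := fun w hw => (hBN w (hBD hw)).2 hw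
  have hZfin : ({w | w ∈ D1 Φ ∧ Ap Φ w v = 0} ∩ BB Φ).Finite := hVfin.subset inter_subset_left
  obtain ⟨O, hO, hOd⟩ := hZfin.t2_separation
  have hch : ∀ w₀ ∈ {w | w ∈ D1 Φ ∧ Ap Φ w v = 0} ∩ BB Φ, ∃ r : ℝ, 0 < r ∧
      ball w₀ r ⊆ O w₀ ∩ N ∧
      ∀ᶠ T : ℝ in atTop, deg (sysT Φ v u T) (dom (ball w₀ r)) = 0 := by
    rintro w₀ ⟨⟨h1, h2⟩, h3⟩
    have hdd : dd Φ w₀ = 0 := by
      by_contra hne
      exact h3.2 ⟨h1, hne⟩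
    obtain ⟨r₀, hr₀, hsub⟩ := Metric.isOpen_iff.1 ((hO w₀).2.inter hN) w₀ ⟨(hO w₀).1, hBBN h3⟩
    obtain ⟨r, hr, hrr, hT⟩ := hloc w₀ h1 h2 hdd r₀ hr₀
    exact ⟨r, hr, (ball_subset_ball hrr).trans hsub, hT⟩
  choose! ρ hρ hρO hρT using hch
  -- away from the balls
  have hCc : IsCompact (BB Φ \ ⋃ w₀ ∈ hZfin.toFinset, ball w₀ (ρ w₀)) :=
    hBB.diff (isOpen_biUnion (fun _ _ => isOpen_ball))
  have hApc : Continuous fun w => Ap Φ w v := (continuous_Ap hS).clm_apply continuous_const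
  obtain ⟨δ, hδ, hδb⟩ : ∃ δ > 0, ∀ w ∈ BB Φ \ ⋃ w₀ ∈ hZfin.toFinset, ball w₀ (ρ w₀),
      δ ≤ ‖Ap Φ w v‖ := by
    rcases (BB Φ \ ⋃ w₀ ∈ hZfin.toFinset, ball w₀ (ρ w₀)).eq_empty_or_nonempty with he | hne
    · exact ⟨1, one_pos, fun x hx => by rw [he] at hx; exact absurd hx (notMem_empty x)⟩
    · obtain ⟨p, hp, hmin⟩ := hCc.exists_isMinOn hne hApc.norm.continuousOn
      refine ⟨‖Ap Φ p v‖, norm_pos_iff.2 (fun h0 => ?_), fun x hx => hmin hx⟩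
      have hpD := hBD hp.1
      rw [D_eq hS] at hpD
      rcases hpD with h1 | h1
      · have hmem : p ∈ {w | w ∈ D1 Φ ∧ Ap Φ w v = 0} ∩ BB Φ := ⟨⟨h1, h0⟩, hp.1⟩
        exact hp.2 (mem_iUnion₂.2 ⟨p, (Set.Finite.mem_toFinset hZfin).2 hmem,
          mem_ball_self (hρ p hmem)⟩)
      · exact hV2 p h1 h0
  have hev : ∀ᶠ T : ℝ in atTop, ∀ w₀ ∈ hZfin.toFinset,
      deg (sysT Φ v u T) (dom (ball w₀ (ρ w₀))) = 0 := by
    rw [Filter.eventually_all_finset]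
    intro w₀ hw₀
    exact hρT w₀ ((Set.Finite.mem_toFinset hZfin).1 hw₀)
  filter_upwards [hev, eventually_gt_atTop (‖u‖ / (m * δ ^ 2)), eventually_ge_atTop (1 : ℝ)]
    with T hT0 hTbig hT1
  have hadm := adm_sysT hS hZ hG1 hN hBB hBBN hBD (fun w hw h => (hBN w hw).1 h) T
  rw [deg_eq_sum hadm hZfin.toFinset (fun w₀ => dom (ball w₀ (ρ w₀)))
    (fun _ _ => isOpen_dom isOpen_ball) ?_ ?_ ?_]
  · exact Finset.sum_eq_zero hT0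
  · intro w₀ hw₀ p hp
    exact ⟨(hρO w₀ ((Set.Finite.mem_toFinset hZfin).1 hw₀) hp.1).2, hp.2⟩
  · intro w₀ hw₀ w₁ hw₁ hne
    have h0 := (Set.Finite.mem_toFinset hZfin).1 hw₀
    have h1 := (Set.Finite.mem_toFinset hZfin).1 hw₁
    have hdis := hOd h0 h1 hne
    rw [Function.onFun, disjoint_left]
    intro p hp hp'
    exact (disjoint_left.1 hdis) (hρO w₀ h0 hp.1).1 (hρO w₁ h1 hp'.1).1
  · intro p hp h0
    obtain ⟨h1, h2, h3⟩ := sysT_eq_zero h0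
    have hD := mem_D_of_zero h2 hp.2 h3
    have hpB := (hBN _ hD).1 hp.1
    by_contra hcon
    push Not at hcon
    have hpC : p.1 ∈ BB Φ \ ⋃ w₀ ∈ hZfin.toFinset, ball w₀ (ρ w₀) := by
      refine ⟨hpB, fun hmem => ?_⟩
      obtain ⟨w₀, hw₀, hw⟩ := mem_iUnion₂.1 hmem
      exact hcon w₀ hw₀ ⟨hw, hp.2⟩
    have hb := (zero_bound hS hmq h2 h3 (Ap_mem Φ p.1 v) h1).2.2
    have h4 := hδb _ hpC
    have h5 : m * (T * δ ^ 2) ≤ ‖u‖ := by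
      refine le_trans ?_ hb
      have h6 : δ ^ 2 ≤ ‖Ap Φ p.1 v‖ ^ 2 := by gcongr
      have h7 : T ≤ 2 * T ^ 2 := by nlinarith
      have h8 : T * δ ^ 2 ≤ 2 * T ^ 2 * ‖Ap Φ p.1 v‖ ^ 2 := by gcongr
      have h9 : 0 ≤ ‖p.2.2‖ ^ 2 := by positivity
      gcongr
      linarith
    rw [div_lt_iff₀ (by positivity)] at hTbig
    nlinarith

end

end Pool.Agent.Flip
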