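import Pool.Agent.Lib_helper47.Flip.Beta
import Pool.Agent.Lib_helper85.Flip.Alpha
import Pool.Agent.Lib_helper31.Flip.Cpt
import Pool.Agent.Lib_helper97.Flip.Eps1
import Pool.Agent.Lib_helper97.Flip.Kappa
import Pool.Agent.Lib_helper97.Flip.Eps2
import Pool.Agent.Lib_helper32.Gen.FinZ
import Pool.Agent.Lib_helper32.Gen.GenC
import Pool.Agent.Lib_helper32.Gen.GenB
import Pool.Agent.Lib_helper89.Flip.Gamma8

/-!
# Assembly: no zero-free flipping quadratic map `ℂ^5 → ℝ^7`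
-/

set_option autoImplicit false

namespace Pool.Agent.Flip

open scoped InnerProductSpace ComplexConjugate
open Complex Set Metric Filter Topology Pool.Agent.Deg47 MeasureTheory

noncomputable section

/-- A null set in `W` misses vectors of arbitrarily large norm. -/
theorem exists_big_notMem {S : Set W} (hS : volume S = 0) (R : ℝ) : ∃ u : W, u ∉ S ∧ R < ‖u‖ := by
  by_contra hcon
  push Not at hcon
  have hsub : (closedBall (0 : W) R)ᶜ ⊆ S := by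
    intro u hu
    by_contra hn
    have := hcon u hn
    exact hu (mem_closedBall_zero_iff.2 this)
  have hopen : IsOpen (closedBall (0 : W) R)ᶜ := isClosed_closedBall.isOpen_compl
  have hne : ((closedBall (0 : W) R)ᶜ).Nonempty := by
    have hnt : Nontrivial W := by
      refine Module.nontrivial_of_finrank_pos (R := ℝ) ?_
      rw [finrank_W]; norm_num
    obtain ⟨x, hx⟩ := NormedSpace.exists_lt_norm ℝ W R
    exact ⟨x, fun h => absurd (mem_closedBall_zero_iff.1 h) (not_le.2 hx)⟩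
  have hpos := hopen.measure_pos volume hne
  exact hpos.ne' (measure_mono_null hsub hS)

/-- Disjoint open neighbourhoods of the two parts. -/
theorem exists_nhds_parts {Φ : Sys} (hS : Symm Φ) (hZ : ZeroFree Φ) : ∃ N₁ N₂ : Set W,
    IsOpen N₁ ∧ IsOpen N₂ ∧ AA Φ ⊆ N₁ ∧ BB Φ ⊆ N₂ ∧ Disjoint N₁ N₂ := by
  have hd : Disjoint (AA Φ) (BB Φ) := by
    rw [disjoint_left]
    intro w hw hw'
    exact hw'.2 hw
  obtain ⟨N₁, N₂, h1, h2, h3, h4, h5⟩ :=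
    SeparatedNhds.of_isCompact_isCompact (isCompact_AA hS hZ) (isCompact_BB hS hZ) hd
  exact ⟨N₁, N₂, h1, h2, h3, h4, h5⟩

theorem D1_subset_D (Φ : Sys) : D1 Φ ⊆ D Φ := by
  rintro w ⟨hw, hk⟩
  refine ⟨hw, ?_⟩
  have hpos : 0 < Module.finrank ℝ (LinearMap.ker (A Φ w).toLinearMap) := by rw [hk]; norm_num
  have hnt := Module.finrank_pos_iff.1 hpos
  obtain ⟨⟨z, hz⟩, hz0⟩ := exists_ne (0 : LinearMap.ker (A Φ w).toLinearMap)
  exact ⟨z, fun h => hz0 (Subtype.ext h), hz⟩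

theorem continuousOn_of_loc_lip {S : Set W} {g : W → (Fin 4 → ℝ)}
    (hg : ∀ w ∈ S, ∃ K : NNReal, ∃ t ∈ 𝓝[S] w, LipschitzOnWith K g t) : ContinuousOn g S := by
  intro w hw
  obtain ⟨K, t, ht, hK⟩ := hg w hw
  have hwt : w ∈ t := mem_of_mem_nhdsWithin hw ht
  have h1 : ContinuousWithinAt g t w := hK.continuousOn w hwt
  exact h1.mono_of_mem_nhdsWithin ht

theorem null_range (L : (Fin 4 → ℝ) →L[ℝ] W) (L' : ℂ →L[ℝ] W) :
    volume {u : W | ∃ x y, L x + L' y = u} = 0 := by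
  obtain ⟨P, hP⟩ : ∃ P : ((Fin 4 → ℝ) × ℂ) →ₗ[ℝ] W, P = (L : (Fin 4 → ℝ) →ₗ[ℝ] W).coprod
    (L' : ℂ →ₗ[ℝ] W) := ⟨_, rfl⟩
  have hset : {u : W | ∃ x y, L x + L' y = u} = (LinearMap.range P : Set W) := by
    ext u
    constructor
    · rintro ⟨x, y, rfl⟩
      exact ⟨(x, y), by rw [hP]; rfl⟩
    · rintro ⟨⟨x, y⟩, h⟩
      exact ⟨x, y, by rw [← h, hP]; rfl⟩
  rw [hset]
  refine Measure.addHaar_submodule volume _ (fun htop => ?_)
  have h1 := LinearMap.finrank_range_le P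
  rw [htop, finrank_top, finrank_W, Module.finrank_prod, Complex.finrank_real_complex] at h1
  simp at h1

/-- **Main theorem**: there is no zero-free flipping quadratic map `ℂ^5 → ℝ^7`. -/
theorem not_zeroFree {Φ₀ : Sys} (hS₀ : Symm Φ₀) : ¬ ZeroFree Φ₀ := by
  intro hZ₀
  obtain ⟨Φ, v, hS, hZ, hV2, hVfin, hnull1⟩ := Lib_helper32.Gen.G_A hS₀ hZ₀
  obtain ⟨v1, v2, hB⟩ := Lib_helper32.Gen.G_B hS hZ
  obtain ⟨g, hgodd, hg0, hgl⟩ := exists_g hS hZ hB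
  have hAAD1 : AA Φ ⊆ D1 Φ := fun w hw => hw.1
  obtain ⟨L, L', hinj, hL0, hnull2⟩ :=
    Lib_helper32.Gen.G_C hS hZ hAAD1 hg0 hgl
  have hgc : ContinuousOn g (AA Φ) := continuousOn_of_loc_lip hgl
  obtain ⟨κ, hκ, hκneg, hκJ, hκ0, hκne⟩ := exists_kappa hS
  -- a bound
  have hcomp : IsCompact (AA Φ ×ˢ (Icc (-2 : ℝ) 2 ×ˢ (closedBall (0 : V) 2 ×ˢ Icc (0 : ℝ) 1))) :=
    (isCompact_AA hS hZ).prod (isCompact_Icc.prod ((isCompact_closedBall _ _).prod isCompact_Icc))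
  obtain ⟨R, hR⟩ : ∃ R : ℝ, ∀ p ∈ AA Φ ×ˢ (Icc (-2 : ℝ) 2 ×ˢ (closedBall (0 : V) 2 ×ˢ
      Icc (0 : ℝ) 1)), ‖(1 - p.2.2.2) • (q Φ p.2.2.1 - p.2.1 • p.1) +
        p.2.2.2 • (L (p.2.1 • g p.1) + L' (κ (p.1, p.2.2.1)))‖ ≤ R := by
    refine hcomp.exists_bound_of_continuousOn ?_
    have hp1 : Continuous fun p : W × ℝ × V × ℝ => p.1 := continuous_fst
    have hp2 : Continuous fun p : W × ℝ × V × ℝ => p.2.1 := continuous_fst.comp continuous_snd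
    have hp3 : Continuous fun p : W × ℝ × V × ℝ => p.2.2.1 :=
      continuous_fst.comp (continuous_snd.comp continuous_snd)
    have hp4 : Continuous fun p : W × ℝ × V × ℝ => p.2.2.2 :=
      continuous_snd.comp (continuous_snd.comp continuous_snd)
    have hg1 : ContinuousOn (fun p : W × ℝ × V × ℝ => g p.1)
        (AA Φ ×ˢ (Icc (-2 : ℝ) 2 ×ˢ (closedBall (0 : V) 2 ×ˢ Icc (0 : ℝ) 1))) :=
      hgc.comp hp1.continuousOn (fun p hp => hp.1)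
    have h1 : Continuous fun p : W × ℝ × V × ℝ => q Φ p.2.2.1 - p.2.1 • p.1 :=
      ((continuous_q Φ).comp hp3).sub (hp2.smul hp1)
    have h2 : ContinuousOn (fun p : W × ℝ × V × ℝ => L (p.2.1 • g p.1))
        (AA Φ ×ˢ (Icc (-2 : ℝ) 2 ×ˢ (closedBall (0 : V) 2 ×ˢ Icc (0 : ℝ) 1))) :=
      L.continuous.comp_continuousOn (hp2.continuousOn.smul hg1)
    have h3 : Continuous fun p : W × ℝ × V × ℝ => L' (κ (p.1, p.2.2.1)) :=
      L'.continuous.comp (hκ.comp (hp1.prodMk hp3))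
    exact ((continuous_const.sub hp4).continuousOn.smul h1.continuousOn).add
      (hp4.continuousOn.smul (h2.add h3.continuousOn))
  -- the null sets
  have hnull3 : volume (⋃ w ∈ {w | w ∈ D1 Φ ∧ Ap Φ w v = 0},
      {u : W | ∃ x ∈ Fp (A Φ w), ∃ c : ℝ, q Φ (J1 x) - c • w = u}) = 0 := by
    rw [measure_biUnion_null_iff hVfin.countable]
    intro w hw
    exact Lib_helper32.Gen.G_U2 hS hw.1
  have hnull4 := null_range L L'
  obtain ⟨u, hu, hubig⟩ := exists_big_notMem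
    (measure_union_null hnull1 (measure_union_null hnull2 (measure_union_null hnull3 hnull4)))
    (max R 0)
  rw [mem_union, mem_union, mem_union, not_or, not_or, not_or] at hu
  obtain ⟨hu1, hu2, hu3, hu4⟩ := hu
  have hu0 : u ≠ 0 := by
    rintro rfl
    rw [norm_zero] at hubig
    exact absurd hubig (not_lt.2 (le_max_right _ _))
  have hG1 : ∀ w ∈ D Φ, ∀ t c : ℝ, q Φ (t • J1 (Ap Φ w v)) - c • w ≠ u :=
    fun w hw t c h => hu1 ⟨w, hw, t, c, h⟩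
  have hline : ∀ w ∈ D Φ, ∀ c : ℝ, c • w ≠ u := by
    intro w hw c h
    refine hG1 w hw 0 (-c) ?_
    rw [zero_smul, q_zero, zero_sub, neg_smul, neg_neg, h]
  have hU2 : ∀ w ∈ D1 Φ, Ap Φ w v = 0 → ∀ x ∈ Fp (A Φ w), ∀ c : ℝ, q Φ (J1 x) - c • w ≠ u := by
    intro w hw hw0 x hx c h
    exact hu3 (mem_iUnion₂.2 ⟨w, ⟨hw, hw0⟩, x, hx, c, h⟩)
  have hL1 : ∀ w ∈ AA Φ, ∀ s ∈ Icc (0 : ℝ) 1, ∀ μ : ℝ,
      μ • (-((1 - s) • w) + s • L (g w)) ≠ u := fun w hw s hs μ h => hu2 ⟨w, hw, s, hs, μ, h⟩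
  have huL : ∀ x y, L x + L' y ≠ u := fun x y h => hu4 ⟨x, y, h⟩
  have hbig : ∀ w ∈ AA Φ, ∀ (c : ℝ) (z : V), |c| + ‖z‖ ^ 2 ≤ 2 → ∀ s ∈ Icc (0 : ℝ) 1,
      ‖(1 - s) • (q Φ z - c • w) + s • (L (c • g w) + L' (κ (w, z)))‖ < ‖u‖ := by
    intro w hw c z hcz s hs
    have hc : |c| ≤ 2 := by nlinarith [sq_nonneg ‖z‖]
    have hz : ‖z‖ ≤ 2 := by nlinarith [abs_nonneg c, norm_nonneg z]
    refine lt_of_le_of_lt ?_ (lt_of_le_of_lt (le_max_left R 0) hubig)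
    exact hR (w, c, z, s) ⟨hw, abs_le.1 hc, mem_closedBall_zero_iff.2 hz, hs⟩
  -- neighbourhoods
  obtain ⟨N₁, N₂, hN₁, hN₂, hA₁, hB₂, hdis⟩ := exists_nhds_parts hS hZ
  have hAAD : AA Φ ⊆ D Φ := hAAD1.trans (D1_subset_D Φ)
  have hDcov : D Φ ⊆ N₁ ∪ N₂ := by
    intro w hw
    by_cases h : w ∈ AA Φ
    · exact Or.inl (hA₁ h)
    · exact Or.inr (hB₂ ⟨hw, h⟩)
  have hAN : ∀ w ∈ D Φ, w ∈ N₁ ↔ w ∈ AA Φ := by
    intro w hw
    refine ⟨fun h => ?_, fun h => hA₁ h⟩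
    by_contra hn
    exact (disjoint_left.1 hdis) h (hB₂ ⟨hw, hn⟩)
  have hBN : ∀ w ∈ D Φ, w ∈ N₂ ↔ w ∈ BB Φ := by
    intro w hw
    refine ⟨fun h => ⟨hw, fun hA => ?_⟩, fun h => hB₂ h⟩
    exact (disjoint_left.1 hdis) (hA₁ hA) h
  have e1 := alpha hS hZ hu0 hline
  have e2 := deg_split hZ hS hline hN₁ hN₂ hdis hDcov
  have e3 := eps hS hZ hgc hgodd hg0 hκ hκneg hκJ hκ0 hκne L L' hinj huL hL0 hL1 hbig hN₁ hAN
  obtain ⟨T, hT⟩ := (gamma hS hZ hV2 hVfin hG1 hU2 hN₂ hBN).exists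
  have e4 := beta hS hZ hG1 hN₂ (isCompact_BB hS hZ) hB₂ (fun w hw => hw.1)
    (fun w hw h => (hBN w hw).1 h) T
  rw [hT] at e4
  rw [e1, ← e4, add_zero] at e2
  rw [← e2] at e3
  norm_num at e3

end

end Pool.Agent.Flip
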