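import Pool.Agent.Lib_helper47.Deg.Comp
import Pool.Agent.Lib_helper89.Flip.Defs
import Pool.Agent.Lib_helper89.Flip.Split
import Pool.Agent.Lib_helper31.Flip.Iso

/-!
# Basic facts and the objects of the non-existence proof (MP_c0c498_gt)
-/

set_option autoImplicit false

namespace Pool.Agent.Flip

open scoped InnerProductSpace ComplexConjugate
open Complex Set Metric Filter Topology Pool.Agent.Deg47

noncomputable section

/-! ## The operators `A(w)` -/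

theorem finrank_V : Module.finrank ℝ V = 10 := by
  have h : Module.finrank ℝ V = Module.finrank ℝ ℂ * Module.finrank ℂ V :=
    (Module.finrank_mul_finrank ℝ ℂ V).symm
  rw [h, Complex.finrank_real_complex, finrank_euclideanSpace_fin]

theorem finrank_W : Module.finrank ℝ W = 7 := by simp

theorem phi_add (Φ : Sys) (w w' : W) : phi Φ (w + w') = phi Φ w + phi Φ w' := by
  unfold phi
  rw [← Finset.sum_add_distrib]
  refine Finset.sum_congr rfl (fun j _ => ?_)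
  rw [PiLp.add_apply, Complex.ofReal_add, add_smul]

theorem phi_smul (Φ : Sys) (c : ℝ) (w : W) : phi Φ (c • w) = (c : ℂ) • phi Φ w := by
  unfold phi
  rw [Finset.smul_sum]
  refine Finset.sum_congr rfl (fun j _ => ?_)
  rw [PiLp.smul_apply, smul_eq_mul, Complex.ofReal_mul, mul_smul]

theorem A_add (Φ : Sys) (w w' : W) : A Φ (w + w') = A Φ w + A Φ w' := by
  ext z i
  change (A Φ (w + w') z) i = (A Φ w z + A Φ w' z) i
  rw [PiLp.add_apply, A_apply, A_apply, A_apply, phi_add, Matrix.add_mulVec, Pi.add_apply, map_add]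

theorem A_smul (Φ : Sys) (c : ℝ) (w : W) : A Φ (c • w) = c • A Φ w := by
  ext z i
  change (A Φ (c • w) z) i = (c • (A Φ w z)) i
  rw [PiLp.smul_apply, A_apply, A_apply, phi_smul, Matrix.smul_mulVec, Pi.smul_apply,
    smul_eq_mul, map_mul, Complex.conj_ofReal]
  rfl

/-- `A` as a linear map in `w`. -/
def AL (Φ : Sys) : W →ₗ[ℝ] (V →L[ℝ] V) where
  toFun := A Φ
  map_add' := A_add Φ
  map_smul' := A_smul Φ

theorem A_neg (Φ : Sys) (w : W) : A Φ (-w) = -A Φ w := (AL Φ).map_neg w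

theorem A_sub (Φ : Sys) (w w' : W) : A Φ (w - w') = A Φ w - A Φ w' := (AL Φ).map_sub w w'

theorem continuous_A (Φ : Sys) : Continuous (A Φ) :=
  (AL Φ).continuous_of_finiteDimensional

theorem inner_V (x y : V) : ⟪x, y⟫_ℝ = (∑ i, conj (x i) * y i).re := by
  rw [Complex.re_sum, PiLp.inner_apply]
  refine Finset.sum_congr rfl (fun i _ => ?_)
  rw [Complex.inner, mul_comm]

theorem inner_A (Φ : Sys) (w : W) (x y : V) : ⟪A Φ w x, y⟫_ℝ = ⟪w, B Φ y x⟫_ℝ := by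
  have h1 : ⟪A Φ w x, y⟫_ℝ = (∑ i, (phi Φ w).mulVec (WithLp.ofLp x) i * y i).re := by
    rw [inner_V]
    congr 1
    refine Finset.sum_congr rfl (fun i _ => ?_)
    rw [A_apply, Complex.conj_conj]
  have h2 : ⟪w, B Φ y x⟫_ℝ
      = ∑ j, w j * (dotProduct (WithLp.ofLp y) ((Φ j).mulVec (WithLp.ofLp x))).re := by
    rw [PiLp.inner_apply]
    refine Finset.sum_congr rfl (fun j _ => ?_)
    rw [B_apply]
    simp [mul_comm]
  rw [h1, h2]
  have h3 : ∀ i, (phi Φ w).mulVec (WithLp.ofLp x) i * y i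
      = ∑ j, (w j : ℂ) * (y i * (Φ j).mulVec (WithLp.ofLp x) i) := by
    intro i
    unfold phi
    rw [Matrix.sum_mulVec, Finset.sum_apply, Finset.sum_mul]
    refine Finset.sum_congr rfl (fun j _ => ?_)
    rw [Matrix.smul_mulVec, Pi.smul_apply, smul_eq_mul]
    ring
  simp_rw [h3]
  rw [Finset.sum_comm, Complex.re_sum]
  refine Finset.sum_congr rfl (fun j _ => ?_)
  rw [← Finset.mul_sum, Complex.re_ofReal_mul]
  rfl

theorem B_symm {Φ : Sys} (hS : Symm Φ) (x y : V) : B Φ x y = B Φ y x := by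
  ext j
  rw [B_apply, B_apply, Matrix.dotProduct_mulVec, ← Matrix.mulVec_transpose, (hS j).eq,
    dotProduct_comm]

theorem inner_A' {Φ : Sys} (hS : Symm Φ) (w : W) (x y : V) : ⟪A Φ w x, y⟫_ℝ = ⟪w, B Φ x y⟫_ℝ := by
  rw [inner_A, B_symm hS]

theorem inner_A_self (Φ : Sys) (w : W) (x : V) : ⟪A Φ w x, x⟫_ℝ = ⟪w, q Φ x⟫_ℝ := inner_A Φ w x x

theorem A_sym {Φ : Sys} (hS : Symm Φ) (w : W) : Sym (A Φ w) := by
  intro x y
  rw [inner_A' hS w x y, real_inner_comm, real_inner_comm (A Φ w y) x, inner_A' hS w y x,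
    B_symm hS, real_inner_comm]

theorem A_J (Φ : Sys) (w : W) (z : V) : A Φ w (J z) = -J (A Φ w z) := by
  ext i
  rw [A_apply]
  have h1 : (WithLp.ofLp (J z)) = Complex.I • WithLp.ofLp z := rfl
  rw [h1, Matrix.mulVec_smul, Pi.smul_apply, smul_eq_mul, map_mul, Complex.conj_I,
    PiLp.neg_apply]
  change _ = -(Complex.I * (A Φ w z) i)
  rw [A_apply]; ring

theorem J_J (z : V) : J (J z) = -z := by
  rw [J_apply, J_apply, smul_smul, Complex.I_mul_I, neg_one_smul]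

theorem norm_J (z : V) : ‖J z‖ = ‖z‖ := by
  rw [J_apply, norm_smul, Complex.norm_I, one_mul]

theorem inner_J (x y : V) : ⟪J x, J y⟫_ℝ = ⟪x, y⟫_ℝ := by
  rw [inner_V, inner_V]
  congr 1
  refine Finset.sum_congr rfl (fun i _ => ?_)
  change conj (Complex.I * x i) * (Complex.I * y i) = _
  rw [map_mul, Complex.conj_I]
  have := Complex.I_mul_I
  linear_combination (-(conj (x i) * y i)) * this

theorem inner_J_left (x y : V) : ⟪J x, y⟫_ℝ = -⟪x, J y⟫_ℝ := by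
  have := inner_J x (J y)
  rw [J_J, inner_neg_right] at this
  linarith

theorem inner_J_self (x : V) : ⟪J x, x⟫_ℝ = 0 := by
  have h1 := inner_J_left x x
  rw [real_inner_comm] at h1
  have h2 : ⟪x, J x⟫_ℝ = ⟪J x, x⟫_ℝ := real_inner_comm _ _
  linarith

theorem antiPair {Φ : Sys} (hS : Symm Φ) (w : W) :
    AntiPair (A Φ w : V →ₗ[ℝ] V) (J : V →ₗ[ℝ] V) where
  symm := fun x y => A_sym hS w x y
  Jsq := J_J
  Jiso := inner_J
  anti := A_J Φ w

/-! ## The quadratic map -/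

theorem q_smul (Φ : Sys) (c : ℝ) (z : V) : q Φ (c • z) = c ^ 2 • q Φ z := by
  unfold q
  rw [map_smul, map_smul, LinearMap.smul_apply, smul_smul, sq]

theorem q_zero (Φ : Sys) : q Φ 0 = 0 := by unfold q; rw [map_zero]

theorem q_neg (Φ : Sys) (z : V) : q Φ (-z) = q Φ z := by
  have := q_smul Φ (-1) z
  rw [neg_one_smul] at this
  rw [this]; norm_num

theorem B_J_J (Φ : Sys) (x y : V) : B Φ (J x) (J y) = -B Φ x y := by
  ext j
  rw [PiLp.neg_apply, B_apply, B_apply]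
  have h1 : (WithLp.ofLp (J x)) = Complex.I • WithLp.ofLp x := rfl
  have h2 : (WithLp.ofLp (J y)) = Complex.I • WithLp.ofLp y := rfl
  rw [h1, h2, Matrix.mulVec_smul, dotProduct_smul, smul_dotProduct, smul_smul,
    Complex.I_mul_I, neg_one_smul, Complex.neg_re]

theorem q_J (Φ : Sys) (z : V) : q Φ (J z) = -q Φ z := B_J_J Φ z z

theorem continuous_B (Φ : Sys) : Continuous fun p : V × V => B Φ p.1 p.2 := by
  have h : Continuous fun x : V => LinearMap.toContinuousLinearMap (B Φ x) := by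
    have : Continuous (((LinearMap.toContinuousLinearMap : (V →ₗ[ℝ] W) ≃ₗ[ℝ] (V →L[ℝ] W)) :
      (V →ₗ[ℝ] W) →ₗ[ℝ] (V →L[ℝ] W)) ∘ₗ (B Φ)) := LinearMap.continuous_of_finiteDimensional _
    exact this
  exact (h.comp continuous_fst).clm_apply continuous_snd

theorem continuous_q (Φ : Sys) : Continuous (q Φ) :=
  (continuous_B Φ).comp (continuous_id.prodMk continuous_id)

/-- Homogeneous lower bound for `q`. -/
theorem exists_q_bound {Φ : Sys} (hZ : ZeroFree Φ) : ∃ m > 0, ∀ z, m * ‖z‖ ^ 2 ≤ ‖q Φ z‖ := by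
  have hcomp : IsCompact (sphere (0 : V) 1) := isCompact_sphere 0 1
  have hne : (sphere (0 : V) 1).Nonempty := by
    have : Nontrivial V := by
      refine Module.nontrivial_of_finrank_pos (R := ℝ) ?_
      rw [finrank_V]; norm_num
    exact NormedSpace.sphere_nonempty.2 zero_le_one
  obtain ⟨p, hp, hmin⟩ := hcomp.exists_isMinOn hne (continuous_q Φ).norm.continuousOn
  refine ⟨‖q Φ p‖, ?_, fun z => ?_⟩
  · rw [gt_iff_lt, norm_pos_iff]
    intro h0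
    rw [hZ p h0] at hp
    simp at hp
  · by_cases hz : z = 0
    · rw [hz, norm_zero]; norm_num
    · have hzn : ‖z‖ ≠ 0 := norm_ne_zero_iff.2 hz
      have h1 : ‖z‖⁻¹ • z ∈ sphere (0 : V) 1 := by
        rw [mem_sphere_zero_iff_norm, norm_smul, norm_inv, norm_norm, inv_mul_cancel₀ hzn]
      have h2 : ‖q Φ p‖ ≤ ‖q Φ (‖z‖⁻¹ • z)‖ := hmin h1
      rw [q_smul, norm_smul, Real.norm_of_nonneg (by positivity)] at h2
      have h3 : (‖z‖⁻¹) ^ 2 * ‖z‖ ^ 2 = 1 := by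
        rw [← mul_pow, inv_mul_cancel₀ hzn, one_pow]
      calc ‖q Φ p‖ * ‖z‖ ^ 2 ≤ ((‖z‖⁻¹) ^ 2 * ‖q Φ z‖) * ‖z‖ ^ 2 := by gcongr
        _ = ((‖z‖⁻¹) ^ 2 * ‖z‖ ^ 2) * ‖q Φ z‖ := by ring
        _ = ‖q Φ z‖ := by rw [h3, one_mul]

/-! ## Positive parts -/

/-- `A_+(w)`. -/
def Ap (Φ : Sys) (w : W) : V →L[ℝ] V := pos (A Φ w)

theorem Ap_sub_le {Φ : Sys} (hS : Symm Φ) (w w' : W) :
    ‖Ap Φ w - Ap Φ w'‖ ≤ Real.sqrt 10 * ‖A Φ w - A Φ w'‖ := by
  have := norm_pos_sub_le (A_sym hS w) (A_sym hS w')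
  rw [finrank_V] at this
  exact_mod_cast this

theorem continuous_Ap {Φ : Sys} (hS : Symm Φ) : Continuous (Ap Φ) := by
  rw [continuous_iff_continuousAt]
  intro w
  rw [ContinuousAt, tendsto_iff_norm_sub_tendsto_zero]
  have h1 : Tendsto (fun w' => Real.sqrt 10 * ‖A Φ w' - A Φ w‖) (𝓝 w) (𝓝 (Real.sqrt 10 * 0)) := by
    refine Tendsto.const_mul _ ?_
    rw [← tendsto_iff_norm_sub_tendsto_zero]
    exact (continuous_A Φ).continuousAt
  rw [mul_zero] at h1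
  exact squeeze_zero (fun _ => norm_nonneg _) (fun w' => Ap_sub_le hS w' w) h1

/-- `1 + i`. -/
def J1 : V →L[ℝ] V := ContinuousLinearMap.id ℝ V + J

theorem J1_apply (z : V) : J1 z = z + J z := rfl

/-- `J` as a linear isometry equivalence. -/
def JI : V ≃ₗᵢ[ℝ] V where
  toLinearEquiv :=
    { (J : V →ₗ[ℝ] V) with
      invFun := fun z => -(J z)
      left_inv := fun z => by
        change -(J (J z)) = z
        rw [J_J, neg_neg]
      right_inv := fun z => by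
        change J (-(J z)) = z
        rw [map_neg, J_J, neg_neg] }
  norm_map' := norm_J

theorem JI_apply (z : V) : JI z = J z := rfl

/-- `J` maps the positive space to the negative space. -/
theorem J_mem_neg {Φ : Sys} (hS : Symm Φ) {w : W} {x : V} (hx : x ∈ Fp (A Φ w)) :
    J x ∈ Fp (-(A Φ w)) := map_Fp_anti JI (A_sym hS w) (A_J Φ w) hx

theorem J_mem_pos {Φ : Sys} (hS : Symm Φ) {w : W} {x : V} (hx : x ∈ Fp (-(A Φ w))) :
    J x ∈ Fp (A Φ w) := map_Fn_anti JI (A_sym hS w) (A_J Φ w) hx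

theorem Ap_mem (Φ : Sys) (w : W) (v : V) : Ap Φ w v ∈ Fp (A Φ w) := pos_mem_Fp _ _

/-- `A_+(-w) = -i A_+(w) i`. -/
theorem Ap_neg_apply {Φ : Sys} (hS : Symm Φ) (w : W) (z : V) : Ap Φ (-w) z = -(J (Ap Φ w (J z))) := by
  have h := pos_anti JI (A_sym hS w) (A_J Φ w) z
  rw [JI_apply, JI_apply] at h
  unfold Ap
  rw [A_neg, h, J_J, neg_neg]

/-- The norm identity. -/
theorem norm_sq_add_J1 {Φ : Sys} (hS : Symm Φ) {w : W} {z x : V} (hz : A Φ w z = 0)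
    (hx : x ∈ Fp (A Φ w)) (t : ℝ) : ‖z + t • J1 x‖ ^ 2 = ‖z‖ ^ 2 + 2 * t ^ 2 * ‖x‖ ^ 2 := by
  have hT := A_sym hS w
  have h1 : ⟪z, x⟫_ℝ = 0 := inner_Kr_Fp hT (mem_Kr.2 hz) hx
  have h2 : ⟪z, J x⟫_ℝ = 0 := inner_Kr_Fn hT (mem_Kr.2 hz) (J_mem_neg hS hx)
  have h3 : ⟪x, J x⟫_ℝ = 0 := inner_Fp_Fn hT hx (J_mem_neg hS hx)
  have h4 : ⟪J x, x⟫_ℝ = 0 := by rw [real_inner_comm]; exact h3
  have h5 : ‖J1 x‖ ^ 2 = 2 * ‖x‖ ^ 2 := by
    rw [J1_apply, norm_add_sq_real, h3, norm_J]; ring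
  rw [norm_add_sq_real, inner_smul_right, J1_apply, inner_add_right, h1, h2, ← J1_apply,
    norm_smul, mul_pow, h5, Real.norm_eq_abs, sq_abs]
  ring

/-- Isotropy of `k + (1+i)x`. -/
theorem isotropic_J1 {Φ : Sys} (hS : Symm Φ) {w : W} {z x : V} (hz : A Φ w z = 0)
    (hx : x ∈ Fp (A Φ w)) : ⟪A Φ w (z + J1 x), z + J1 x⟫_ℝ = 0 := by
  have hT := A_sym hS w
  have hAx := map_mem_Fp hT hx
  have h3 : ⟪A Φ w x, J x⟫_ℝ = 0 := inner_Fp_Fn hT hAx (J_mem_neg hS hx)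
  have e1 : A Φ w (z + J1 x) = A Φ w x - J (A Φ w x) := by
    rw [map_add, hz, zero_add, J1_apply, map_add, A_J]; abel
  have h1 : ⟪A Φ w x, z⟫_ℝ = 0 := by rw [hT, hz, inner_zero_right]
  have h2 : ⟪J (A Φ w x), z⟫_ℝ = 0 := by
    have : J (A Φ w x) = -(A Φ w (J x)) := by rw [A_J, neg_neg]
    rw [this, inner_neg_left, hT, hz, inner_zero_right, neg_zero]
  have h4 : ⟪J (A Φ w x), x⟫_ℝ = 0 := by rw [inner_J_left, h3, neg_zero]
  rw [e1, J1_apply, inner_sub_left, inner_add_right, inner_add_right, inner_add_right,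
    inner_add_right, h1, h2, h3, h4, inner_J]
  ring

/-- A priori bounds for the zeros. -/
theorem zero_bound {Φ : Sys} (hS : Symm Φ) {m : ℝ} (hm : ∀ z, m * ‖z‖ ^ 2 ≤ ‖q Φ z‖) {w u : W}
    (hw : ‖w‖ = 1) {z x : V} (hz : A Φ w z = 0) (hx : x ∈ Fp (A Φ w)) {c t : ℝ}
    (h : q Φ (z + t • J1 x) - c • w = u) :
    c = -⟪w, u⟫_ℝ ∧ |c| ≤ ‖u‖ ∧ m * (‖z‖ ^ 2 + 2 * t ^ 2 * ‖x‖ ^ 2) ≤ ‖u‖ := by
  have h1 : ⟪w, q Φ (z + t • J1 x)⟫_ℝ = 0 := by
    rw [← inner_A_self]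
    have e : t • J1 x = J1 (t • x) := by rw [map_smul]
    rw [e]
    exact isotropic_J1 hS hz ((Fp (A Φ w)).smul_mem t hx)
  have h2 : q Φ (z + t • J1 x) = c • w + u := by rw [← h]; abel
  have hww : ⟪w, w⟫_ℝ = 1 := by rw [real_inner_self_eq_norm_sq, hw]; norm_num
  have hc : c = -⟪w, u⟫_ℝ := by
    have h3 := h1
    rw [h2, inner_add_right, inner_smul_right, hww] at h3
    linarith
  have hc2 : |c| ≤ ‖u‖ := by
    rw [hc, abs_neg]
    have := abs_real_inner_le_norm w u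
    rwa [hw, one_mul] at this
  refine ⟨hc, hc2, ?_⟩
  have h4 : ‖q Φ (z + t • J1 x)‖ ^ 2 ≤ ‖q Φ (z + t • J1 x)‖ * ‖u‖ := by
    rw [← real_inner_self_eq_norm_sq]
    nth_rewrite 2 [h2]
    rw [inner_add_right, inner_smul_right, real_inner_comm, h1, mul_zero, zero_add]
    exact real_inner_le_norm _ _
  have h5 : ‖q Φ (z + t • J1 x)‖ ≤ ‖u‖ := by
    by_cases h0 : ‖q Φ (z + t • J1 x)‖ = 0
    · rw [h0]; exact norm_nonneg _
    · have hpos : 0 < ‖q Φ (z + t • J1 x)‖ := lt_of_le_of_ne (norm_nonneg _) (Ne.symm h0)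
      rw [sq] at h4
      exact le_of_mul_le_mul_left h4 hpos
  rw [← norm_sq_add_J1 hS hz hx t]
  exact (hm _).trans h5

/-! ## The systems -/

/-- The total space. -/
abbrev EE := W × ℝ × V

/-- The system `Φ_t(w,c,z) = (q(z + t(1+i)A_+(w)v) - c w - u, |w|²-1, A(w) z)`. -/
def sysT (Φ : Sys) (v : V) (u : W) (t : ℝ) (p : EE) : EE :=
  (q Φ (p.2.2 + t • J1 (Ap Φ p.1 v)) - p.2.1 • p.1 - u, ‖p.1‖ ^ 2 - 1, A Φ p.1 p.2.2)

/-- The system `Φ_0(w,c,z) = (q(z) - c w - u, |w|²-1, A(w) z)`. -/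
def sys0 (Φ : Sys) (u : W) (p : EE) : EE :=
  (q Φ p.2.2 - p.2.1 • p.1 - u, ‖p.1‖ ^ 2 - 1, A Φ p.1 p.2.2)

theorem sysT_zero (Φ : Sys) (v : V) (u : W) : sysT Φ v u 0 = sys0 Φ u := by
  funext p
  unfold sysT sys0
  rw [zero_smul, add_zero]

/-- The domain `{w ∈ N, z ≠ 0}`. -/
def dom (N : Set W) : Set EE := {p | p.1 ∈ N ∧ p.2.2 ≠ 0}

theorem isOpen_dom {N : Set W} (hN : IsOpen N) : IsOpen (dom N) := by
  unfold dom
  exact (hN.preimage continuous_fst).inter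
    ((isOpen_compl_singleton (x := (0 : V))).preimage (by fun_prop))

/-! ## The `𝔇`-function -/

/-- An arbitrary fixed identification `ℝ × ℝ⁶ ≃ W`. -/
def e7 : (ℝ × (Fin 6 → ℝ)) ≃L[ℝ] W :=
  ContinuousLinearEquiv.ofFinrankEq (by simp)

/-- The map `(c,x) ↦ q(∑ x_j b_j) - c w`, read in `ℝ × ℝ⁶`. -/
def DDmap (Φ : Sys) (w : W) (b : Fin 6 → V) (p : ℝ × (Fin 6 → ℝ)) : ℝ × (Fin 6 → ℝ) :=
  e7.symm (q Φ (∑ j, p.2 j • b j) - p.1 • w)

/-- Its degree. -/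
def DD (Φ : Sys) (w : W) (b : Fin 6 → V) : ℤ := deg (DDmap Φ w b) univ

/-- Nondegeneracy: the map has no other zero than the origin. -/
def ND (Φ : Sys) (w : W) (b : Fin 6 → V) : Prop :=
  ∀ (c : ℝ) (x : Fin 6 → ℝ), q Φ (∑ j, x j • b j) = c • w → c = 0 ∧ x = 0

/-- The 6-frame `(k, ik, (1+i)f_1, …, (1+i)f_4)`. -/
def fr (k : V) (f : Fin 4 → V) : Fin 6 → V := ![k, J k, J1 (f 0), J1 (f 1), J1 (f 2), J1 (f 3)]

/-- `k` spans the kernel, `f` is a basis of the positive space (for `w ∈ D1`). -/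
structure FrameAt (Φ : Sys) (w : W) (k : V) (f : Fin 4 → V) : Prop where
  k_ne : k ≠ 0
  k_ker : A Φ w k = 0
  li : LinearIndependent ℝ f
  mem : ∀ j, f j ∈ Fp (A Φ w)

open Classical in
/-- The absolute value of `𝔇` on `D_1` (and `0` elsewhere). -/
def dd (Φ : Sys) (w : W) : ℤ :=
  if h : ∃ kf : V × (Fin 4 → V), FrameAt Φ w kf.1 kf.2 then |DD Φ w (fr h.choose.1 h.choose.2)| else 0

/-- The part `A` of `D`. -/
def AA (Φ : Sys) : Set W := {w | w ∈ D1 Φ ∧ dd Φ w ≠ 0}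

/-- The part `B` of `D`. -/
def BB (Φ : Sys) : Set W := D Φ \ AA Φ

end

end Pool.Agent.Flip
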